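import Mathlib.Algebra.BigOperators.ModEq
import Mathlib.Algebra.DualNumber
import Mathlib.Algebra.Order.Chebyshev
import Mathlib.Algebra.Order.Ring.Star
import Mathlib.Algebra.Order.Star.Real
import Mathlib.Algebra.Ring.IsFormallyReal
import Mathlib.AlgebraicTopology.FundamentalGroupoid.SimplyConnected
import Mathlib.Analysis.CStarAlgebra.Classes
import Mathlib.Analysis.Calculus.Deriv.Star
import Mathlib.Analysis.Complex.OpenMapping
import Mathlib.Analysis.Convex.Contractible
import Mathlib.Analysis.Convex.SpecificFunctions.Pow
import Mathlib.Analysis.InnerProductSpace.Calculus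
import Mathlib.Analysis.Real.Pi.Bounds
import Mathlib.Analysis.SpecialFunctions.Arcosh
import Mathlib.Analysis.SpecialFunctions.Complex.Arctan
import Mathlib.Data.Int.Star
import Mathlib.Data.LawfulXor.Basic
import Mathlib.Data.Nat.Bitwise
import Mathlib.LinearAlgebra.Eigenspace.Basic
import Mathlib.LinearAlgebra.Matrix.Hermitian
import Mathlib.Order.CompletePartialOrder
import Mathlib.RingTheory.Etale.Weakly
import Mathlib.RingTheory.Finiteness.ModuleFinitePresentation
import Mathlib.RingTheory.Flat.TorsionFree
import Mathlib.RingTheory.PicardGroup
import Mathlib.RingTheory.SimpleRing.Principal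
import Mathlib.RingTheory.TotallySplit
import Mathlib.Tactic.NormNum.RealSqrt
import Mathlib.Tactic

/-! The part of Mathlib that the modules of MP_c75db0 use: a small import keeps every module cheap. -/
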