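import Pool.Agent.Helper91.FU.L
import Pool.Agent.Helper21.FX.B
import Pool.Agent.Helper45.N9S.SL
import Pool.Agent.Helper17.N9.N9Y
import Pool.Agent.Helper26.TM.TR

/-!
MP_c75db0, Plan W: THE ITEM TESTS USED BY THE CELLS (one place for all the cells): fused machine with
the former tests as a fallback, disc matrices for the tail of the runs (`helper51`).
-/

set_option autoImplicit false
noncomputable section
namespace Pool.Agent.C75W.M

open Pool.Agent.Helper86.C75 (Z)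
open Pool.Agent.Helper17.N9 (Kf Te Tr_ok)
open Pool.Agent.Helper26.SF (Sf)
open Pool.Agent.Helper26.TR (Tr)
open Pool.Agent.Helper12.TE (KA KB ALW BLW TrD TrD_ok itTX CelX aIX BLW_K)
open Pool.Agent.Helper91.FU (aFO aFO_L)
open Pool.Agent.Helper21.FX (bF bF_L)
open Pool.Agent.Helper45.N9S (TrS TrS_ok)
open Pool.Agent.Helper91.BX (PcG)
open Pool.Agent.Helper91.TM
open Pool.Agent.Helper91.TMK
open Pool.Agent.Helper91.TMK.SW
open Pool.Agent.Helper6.MONO (fB)
open Pool.Agent.Helper6.MONO.W2.TY (r4T)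
open Pool.Agent.Helper21.SW (Mu SE)
open Pool.Agent.Helper21.TC

/-- the items of the kinds `0` - `5` -/
def aM : KA TP Kf Te := aFO TrS Tr
/-- the invariance items of the kinds `0` - `5` -/
def bM : KB Kf := bF (aIX MT (TT Tr))
/-- THE ITEM TESTS -/
def IM (C : Cel Kf) (g : GN) : IT TP Kf (List Te) (Mu × Sf) := itTX Tr TrD aM bM C g

theorem aM_L : ALW lfT KV MT aM := aFO_L TrS_ok Tr_ok
theorem bM_L : BLW lfT KV MT bM := bF_L (BLW_K MT_ok (TT_ok Tr_ok))

/-- **THE TESTS OF A CELL** (fields `ck ce le gb it i1 ic se`) -/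
abbrev CelM (C : Cel Kf) (g : GN) (ms : List (List Mu)) (E : SE) : Prop :=
  CelX Tr TrD aM bM C g ms E

/-- **A PIECE OF THE WINDOW FROM THE TESTS OF A CELL** -/
theorem CelM_pc {C : Cel Kf} {g : GN} {ms : List (List Mu)} {E : SE} (h : CelM C g ms E)
    (h4 : r4T C.D.p C.B.A0 C.B.ra C.B.S0 C.B.rs = true) {Q : ℕ → ℕ → ℝ → Prop} {m : ℝ}
    (hQ : ∀ q r x, Q q r x → C.D.gb = true → 0 ≤ fB C.D.p q r x) :
    PcG Q C.D.p m C.B.A0 C.B.A1 C.B.ra C.B.S0 C.B.S1 C.B.rs C.S C.B.W0 C.S C.B.W1 :=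
  CelX.pc Tr_ok TrD_ok aM_L bM_L h h4 hQ

end Pool.Agent.C75W.M
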