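import Pool.Agent.C75W.M
import Pool.Agent.Helper45.M2.C

/-!
MP_c75db0, Plan W: THE ITEM TESTS USED BY THE CELLS WITH A GAP BOX (`gb`): like `Pool.Agent.C75W.M`,
the tests of the kinds `6` and `7` through kernel S (`helper45`), the former tests as a fallback.
-/

set_option autoImplicit false
noncomputable section
namespace Pool.Agent.C75W.M2

open Pool.Agent.Helper17.N9 (Kf Te Tr_ok)
open Pool.Agent.Helper26.SF (Sf)
open Pool.Agent.Helper26.TR (Tr)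
open Pool.Agent.Helper12.TE (KA KB ALW BLW)
open Pool.Agent.Helper91.FU (aFO aFO_L)
open Pool.Agent.Helper45.M2 (TKS TKS_ok TrK TrK_ok TDS TDS_ok D2 itTY CelY CelY.pc)
open Pool.Agent.Helper91.BX (PcG)
open Pool.Agent.Helper91.TM
open Pool.Agent.Helper91.TMK
open Pool.Agent.Helper91.TMK.SW
open Pool.Agent.Helper6.MONO (fB)
open Pool.Agent.Helper6.MONO.W2.TY (r4T)
open Pool.Agent.Helper21.SW (Mu SE)
open Pool.Agent.Helper21.TC

/-- the items of the kinds `0` - `5` -/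
def aM2 : KA TP Kf Te := aFO TrK Tr
/-- the invariance items of the kinds `0` - `5` -/
def bM2 : KB Kf := Pool.Agent.C75W.M.bM
/-- the tests of the kinds `6`, `7` -/
def TM2 : TK TP Kf Te := TKS (TT Tr)
/-- THE ITEM TESTS -/
def IM2 (C : Cel Kf) (g : GN) : IT TP Kf (List Te) (Mu × Sf) := itTY TM2 TDS aM2 bM2 C g

theorem aM2_L : ALW lfT KV MT aM2 := aFO_L TrK_ok Tr_ok
theorem bM2_L : BLW lfT KV MT bM2 := Pool.Agent.C75W.M.bM_L
theorem TM2_L : TKL lfT (nM 3 lfT) KV TM2 := TKS_ok (TT_ok Tr_ok)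

/-- **THE TESTS OF A CELL** (fields `ck ce le gb it i1 ic se`) -/
abbrev CelM2 (C : Cel Kf) (g : GN) (ms : List (List Mu)) (E : SE) : Prop :=
  CelY Tr (IM2 C g) C g ms E

/-- **A PIECE OF THE WINDOW FROM THE TESTS OF A CELL** -/
theorem CelM2_pc {C : Cel Kf} {g : GN} {ms : List (List Mu)} {E : SE} (h : CelM2 C g ms E)
    (h4 : r4T C.D.p C.B.A0 C.B.ra C.B.S0 C.B.rs = true) {Q : ℕ → ℕ → ℝ → Prop} {m : ℝ}
    (hQ : ∀ q r x, Q q r x → C.D.gb = true → 0 ≤ fB C.D.p q r x) :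
    PcG Q C.D.p m C.B.A0 C.B.A1 C.B.ra C.B.S0 C.B.S1 C.B.rs C.S C.B.W0 C.S C.B.W1 :=
  CelY.pc Tr_ok TM2_L TDS_ok aM2_L bM2_L h h4 hQ

end Pool.Agent.C75W.M2
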