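import Pool.Agent.Helper21.TM.M7B

/-!
MP_c75db0, Plan W: a part of the items of a cell may be tested in several pieces (`helper51`).
-/

set_option autoImplicit false
noncomputable section
namespace Pool.Agent.C75W.S

open Pool.Agent.Helper21.SW (al2 al2_t)
open Pool.Agent.Helper91.TMK.SW

theorem al2_ex {a b : Type} {f : a → b → Bool} : ∀ {l : List a},
    (∀ x ∈ l, ∃ y, f x y = true) → ∃ h : List b, al2 f l h = true
  | [], _ => ⟨[], rfl⟩
  | x :: l, hl => by
    obtain ⟨y, hy⟩ := hl x (List.mem_cons_self ..)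
    obtain ⟨h, hh⟩ := al2_ex (l := l) fun z hz => hl z (List.mem_cons_of_mem _ hz)
    refine ⟨y :: h, ?_⟩
    show Pool.Agent.Helper86.CX.andB (f x y) (al2 f l h) = true
    rw [hy, hh]
    rfl

theorem al2_app {a b : Type} {f : a → b → Bool} {l l' : List a} {h h' : List b}
    (e : al2 f l h = true) (e' : al2 f l' h' = true) : ∃ H : List b, al2 f (l ++ l') H = true :=
  al2_ex fun x hx => (List.mem_append.1 hx).elim (al2_t e x) (al2_t e' x)

section

variable {α κ γ δ : Type} {M : Mn α} {I : IT α κ γ δ} {C : Cel κ}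

/-- a part in two pieces -/
theorem ItsK.pt {g P : Nat} {l l' : List (Nat × Nat × Unit)} (h : ItsK M I C g [(P, l)])
    (h' : ItsK M I C g [(P, l')]) : ItsK M I C g [(P, l ++ l')] := by
  intro Q hQ
  obtain rfl := List.mem_singleton.1 hQ
  obtain ⟨H, e⟩ := h _ (List.mem_singleton.2 rfl)
  obtain ⟨H', e'⟩ := h' _ (List.mem_singleton.2 rfl)
  exact al2_app (f := itP M I C (g % 32) P _ _) e e'

theorem IvsK.pt {g P : Nat} {l l' : List (Nat × Unit)} (h : IvsK I C g [(P, l)])
    (h' : IvsK I C g [(P, l')]) : IvsK I C g [(P, l ++ l')] := by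
  intro Q hQ
  obtain rfl := List.mem_singleton.1 hQ
  obtain ⟨H, e⟩ := h _ (List.mem_singleton.2 rfl)
  obtain ⟨H', e'⟩ := h' _ (List.mem_singleton.2 rfl)
  exact al2_app (f := i1P I C (g % 32) P _) e e'

end

end Pool.Agent.C75W.S
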